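import Pool.Agent.Helper79.GL4.GoalsB

/-!
# GL4, packet POL2: induction step of the counting argument in the polygon case
-/

set_option autoImplicit false

namespace GL4.PkPOL2

open Module Submodule

variable {F : Type} [Field F] {W : Type} [AddCommGroup W] [Module F W]

lemma two_le_card (F : Type) [Field F] [Finite F] : 2 ≤ Nat.card F := by
  have := Finite.one_lt_card (α := F)
  omega

lemma br_inj {q a b : ℕ} (hq : 1 ≤ q) (h : br q a = br q b) : a = b := by
  rcases lt_trichotomy a b with h1 | h1 | h1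
  · have := br_strictMono hq h1; omega
  · exact h1
  · have := br_strictMono hq h1; omega

lemma be_eq (hS : SYMC) [FiniteDimensional F W] (G : Subgroup (W ≃ₗ[F] W))
    (B N : Submodule F W → Submodule F W) (hPG : PG B N) (hNN : NN G 2 N)
    (hB : ∀ g ∈ G, ∀ x, Pt x → B (im g x) = im g (B x)) :
    ∀ j, ∀ g ∈ G, ∀ x, Pt x → Be B N j (im g x) = im g (Be B N j x) := by
  obtain ⟨-, -, h3⟩ := hS F W B N hPG
  intro j
  induction j with
  | zero =>
    intro g hg x hx
    exact (im_top g).symm
  | succ j ih =>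
    intro g hg x hx
    rcases Nat.eq_zero_or_pos j with rfl | hj
    · exact hB g hg x hx
    · have key : ∀ y, Pt y → (y ≤ Be B N (j + 1) (im g x) ↔ y ≤ im g (Be B N (j + 1) x)) := by
        intro y hy
        have hgy : Pt (im g⁻¹ y) := hy.im
        have e1 : y ≤ im g (Be B N (j + 1) x) ↔ im g⁻¹ y ≤ Be B N (j + 1) x := by
          rw [← im_le_im_iff g⁻¹, im_inv_im]
        rw [h3 j (im g x) y hj hx.im hy, ih g hg x hx, e1,
          h3 j x (im g⁻¹ y) hj hx hgy, hNN.eqN g⁻¹ (G.inv_mem hg) y hy,
          ← im_le_im_iff g⁻¹, im_inv_im]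
      exact le_antisymm (le_of_pts fun y hy h => (key y hy).1 h)
        (le_of_pts fun y hy h => (key y hy).2 h)

open Classical in
/-- number of points of a subspace -/
lemma card_filter_pts [Finite F] [FiniteDimensional F W] [Fintype (Submodule F W)]
    (U : Submodule F W) :
    (Finset.univ.filter fun y : Submodule F W => Pt y ∧ y ≤ U).card =
      br (Nat.card F) (finrank F U) := by
  rw [← card_pts_le U, Nat.card_eq_fintype_card, Fintype.card_subtype]

theorem pol2 (hS : SYMC) : GL4.POL2 := by
  classical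
  intro F _ _ W _ _ _ G B N hPG hNN hT hB hst i hi him hbi hbi1 hAi
  have hm : 1 ≤ finrank F W := by omega
  obtain ⟨hsym, hdec, h3⟩ := hS F W B N hPG
  have heq := be_eq hS G B N hPG hNN hB
  have hq := two_le_card F
  set q := Nat.card F with hqdef
  haveI : Fintype (Submodule F W) := Fintype.ofFinite _
  -- constant dimension
  have hconst : ∀ j x y, Pt x → Pt y → finrank F (Be B N j x) = finrank F (Be B N j y) := by
    intro j x y hx hy
    obtain ⟨g, hg, hgx⟩ := hT x y hx hy
    rw [← hgx, heq j g hg x hx, finrank_im]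
  -- a point exists
  obtain ⟨x0, hx0, -⟩ := exists_pt_le (U := (⊤ : Submodule F W)) (by
    intro h
    have : finrank F (⊤ : Submodule F W) = 0 := by rw [h]; exact finrank_bot F W
    rw [finrank_top] at this
    omega)
  -- (1)
  have h1 : ∀ x y, Pt x → Pt y → ¬ y ≤ Be B N i x → N y ⊓ Be B N (i + 1) x = ⊥ := by
    intro x y hx hy hny
    by_contra hne
    obtain ⟨w, hw, hwle⟩ := exists_pt_le hne
    apply hny
    have hw1 : w ≤ N y := hwle.trans inf_le_left
    have hw2 : w ≤ Be B N (i + 1) x := hwle.trans inf_le_right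
    exact (hPG.symN y w hy hw hw1).trans ((h3 i x w hi hx hw).1 hw2)
  -- (2)
  have h2 : ∀ x y, Pt x → Pt y → y ≤ Be B N i x → ¬ y ≤ Be B N (i + 1) x →
      finrank F ↥(N y ⊓ Be B N (i + 1) x) ≤ 1 := by
    intro x y hx hy hyi hny
    have h4 := (hAi x y hx hy).2.2.1 hyi hny
    have h5 : N y ⊓ Be B N (i + 1) x < N y ⊓ Be B N i x := by
      refine lt_of_le_of_ne (inf_le_inf_left _ (hdec i x hx)) ?_
      intro he
      apply hny
      have : y ≤ N y ⊓ Be B N i x := le_inf (hPG.selfN y hy) hyi
      rw [← he] at this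
      exact this.trans inf_le_right
    have h6 := Submodule.finrank_lt_finrank_of_lt h5
    omega
  -- the double counting at x
  have hcount : ∀ x, Pt x →
      let P1 := Finset.univ.filter fun w : Submodule F W => Pt w ∧ w ≤ Be B N (i + 1) x
      let P2 := Finset.univ.filter fun y : Submodule F W =>
        Pt y ∧ y ≤ Be B N i x ∧ ¬ y ≤ Be B N (i + 1) x
      ∑ w ∈ P1, (br q 3 - br q (finrank F ↥(N w ⊓ Be B N (i + 1) x))) =
        ∑ y ∈ P2, br q (finrank F ↥(N y ⊓ Be B N (i + 1) x)) := by
    intro x hx P1 P2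
    have hdc := Finset.sum_card_bipartiteAbove_eq_sum_card_bipartiteBelow (s := P1) (t := P2)
      (fun w y : Submodule F W => y ≤ N w)
    calc ∑ w ∈ P1, (br q 3 - br q (finrank F ↥(N w ⊓ Be B N (i + 1) x)))
        = ∑ w ∈ P1, (P2.bipartiteAbove (fun w y : Submodule F W => y ≤ N w) w).card := by
          apply Finset.sum_congr rfl
          intro w hw
          obtain ⟨-, hw1, hw2⟩ := Finset.mem_filter.1 hw
          have hNw : N w ≤ Be B N i x := (h3 i x w hi hx hw1).1 hw2
          have e1 : (P2.bipartiteAbove (fun w y : Submodule F W => y ≤ N w) w) =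
              (Finset.univ.filter fun y : Submodule F W => Pt y ∧ y ≤ N w) \
              (Finset.univ.filter fun y : Submodule F W =>
                Pt y ∧ y ≤ N w ⊓ Be B N (i + 1) x) := by
            ext y
            simp only [Finset.mem_bipartiteAbove, P2, Finset.mem_filter, Finset.mem_univ, true_and,
              Finset.mem_sdiff, not_and, le_inf_iff]
            constructor
            · rintro ⟨⟨a, b, c⟩, d⟩
              exact ⟨⟨a, d⟩, fun _ _ => c⟩
            · rintro ⟨⟨a, d⟩, c⟩
              exact ⟨⟨a, d.trans hNw, c a d⟩, d⟩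
          rw [e1, Finset.card_sdiff_of_subset, card_filter_pts, card_filter_pts, hPG.dimN w hw1]
          intro y hy
          simp only [Finset.mem_filter, Finset.mem_univ, true_and, le_inf_iff] at hy ⊢
          exact ⟨hy.1, hy.2.1⟩
      _ = ∑ y ∈ P2, (P1.bipartiteBelow (fun w y : Submodule F W => y ≤ N w) y).card := hdc
      _ = ∑ y ∈ P2, br q (finrank F ↥(N y ⊓ Be B N (i + 1) x)) := by
          apply Finset.sum_congr rfl
          intro y hy
          obtain ⟨-, hy1, hy2, hy3⟩ := Finset.mem_filter.1 hy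
          rw [← card_filter_pts]
          congr 1
          ext w
          simp only [Finset.mem_bipartiteBelow, P1, Finset.mem_filter, Finset.mem_univ, true_and,
            le_inf_iff]
          constructor
          · rintro ⟨⟨a, b⟩, c⟩
            exact ⟨a, hPG.symN w y a hy1 c, b⟩
          · rintro ⟨a, b, c⟩
            exact ⟨⟨a, c⟩, hPG.symN y w hy1 a b⟩
  -- dimension of N w ⊓ β for w in β_{i+1} \ β_{i+2}
  have ht2 : ∀ x w, Pt x → Pt w → ¬ w ≤ Be B N (i + 2) x →
      finrank F ↥(N w ⊓ Be B N (i + 1) x) ≤ 2 := by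
    intro x w hx hw hn
    have h4 : N w ⊓ Be B N (i + 1) x < N w := by
      refine lt_of_le_of_ne inf_le_left ?_
      intro he
      apply hn
      rw [h3 (i + 1) x w (by omega) hx hw, ← he]
      exact inf_le_right
    have h5 := Submodule.finrank_lt_finrank_of_lt h4
    rw [hPG.dimN w hw] at h5
    omega
  have hbr3 : br q 3 = br q 2 + q ^ 2 := br_succ q 2
  -- the main inequality
  have hineq : ∀ x, Pt x →
      q ^ 2 * (br q (finrank F (Be B N (i + 1) x)) - br q (finrank F (Be B N (i + 2) x))) ≤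
        br q (finrank F (Be B N i x)) - br q (finrank F (Be B N (i + 1) x)) ∧
      (q ^ 2 * (br q (finrank F (Be B N (i + 1) x)) - br q (finrank F (Be B N (i + 2) x))) =
        br q (finrank F (Be B N i x)) - br q (finrank F (Be B N (i + 1) x)) →
        (∀ y, Pt y → y ≤ Be B N i x → ¬ y ≤ Be B N (i + 1) x →
          finrank F ↥(N y ⊓ Be B N (i + 1) x) = 1) ∧
        (∀ y, Pt y → y ≤ Be B N (i + 1) x → ¬ y ≤ Be B N (i + 2) x →
          finrank F ↥(N y ⊓ Be B N (i + 1) x) = 2)) := by
    intro x hx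
    have hc := hcount x hx
    simp only at hc
    set P1 := Finset.univ.filter fun w : Submodule F W => Pt w ∧ w ≤ Be B N (i + 1) x with hP1
    set P2 := Finset.univ.filter fun y : Submodule F W =>
        Pt y ∧ y ≤ Be B N i x ∧ ¬ y ≤ Be B N (i + 1) x with hP2
    set P3 := P1.filter fun w : Submodule F W => ¬ w ≤ Be B N (i + 2) x with hP3
    have hcard2 : P2.card =
        br q (finrank F (Be B N i x)) - br q (finrank F (Be B N (i + 1) x)) := by
      have e1 : P2 = (Finset.univ.filter fun y : Submodule F W => Pt y ∧ y ≤ Be B N i x) \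
          (Finset.univ.filter fun y : Submodule F W => Pt y ∧ y ≤ Be B N (i + 1) x) := by
        ext y
        simp only [P2, Finset.mem_filter, Finset.mem_univ, true_and, Finset.mem_sdiff, not_and]
        constructor
        · rintro ⟨a, b, c⟩; exact ⟨⟨a, b⟩, fun _ => c⟩
        · rintro ⟨⟨a, b⟩, c⟩; exact ⟨a, b, c a⟩
      rw [e1, Finset.card_sdiff_of_subset, card_filter_pts, card_filter_pts]
      intro y hy
      simp only [Finset.mem_filter, Finset.mem_univ, true_and] at hy ⊢
      exact ⟨hy.1, hy.2.trans (hdec i x hx)⟩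
    have hcard3 : P3.card =
        br q (finrank F (Be B N (i + 1) x)) - br q (finrank F (Be B N (i + 2) x)) := by
      have e1 : P3 = P1 \
          (Finset.univ.filter fun y : Submodule F W => Pt y ∧ y ≤ Be B N (i + 2) x) := by
        ext y
        simp only [P3, P1, Finset.mem_filter, Finset.mem_univ, true_and, Finset.mem_sdiff, not_and]
        constructor
        · rintro ⟨⟨a, b⟩, c⟩; exact ⟨⟨a, b⟩, fun _ => c⟩
        · rintro ⟨⟨a, b⟩, c⟩; exact ⟨⟨a, b⟩, c a⟩
      rw [e1, Finset.card_sdiff_of_subset, card_filter_pts, card_filter_pts]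
      intro y hy
      simp only [P1, Finset.mem_filter, Finset.mem_univ, true_and] at hy ⊢
      exact ⟨hy.1, hy.2.trans (hdec (i + 1) x hx)⟩
    have hlow : ∀ w ∈ P3, q ^ 2 ≤
        br q 3 - br q (finrank F ↥(N w ⊓ Be B N (i + 1) x)) := by
      intro w hw
      obtain ⟨hw1, hw2⟩ := Finset.mem_filter.1 hw
      obtain ⟨-, hw3, hw4⟩ := Finset.mem_filter.1 hw1
      have h6 := br_mono (q := q) (ht2 x w hx hw3 hw2)
      omega
    have hup : ∀ y ∈ P2, br q (finrank F ↥(N y ⊓ Be B N (i + 1) x)) ≤ 1 := by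
      intro y hy
      obtain ⟨-, hy1, hy2, hy3⟩ := Finset.mem_filter.1 hy
      have h6 := br_mono (q := q) (h2 x y hx hy1 hy2 hy3)
      rwa [br_one] at h6
    have hA : q ^ 2 * P3.card ≤ ∑ w ∈ P3, (br q 3 - br q (finrank F ↥(N w ⊓ Be B N (i + 1) x))) := by
      have := Finset.sum_le_sum hlow
      rw [Finset.sum_const, smul_eq_mul, mul_comm] at this
      exact this
    have hA' : ∑ w ∈ P3, (br q 3 - br q (finrank F ↥(N w ⊓ Be B N (i + 1) x))) ≤
        ∑ w ∈ P1, (br q 3 - br q (finrank F ↥(N w ⊓ Be B N (i + 1) x))) :=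
      Finset.sum_le_sum_of_subset (Finset.filter_subset _ _)
    have hC : ∑ y ∈ P2, br q (finrank F ↥(N y ⊓ Be B N (i + 1) x)) ≤ P2.card := by
      have := Finset.sum_le_sum hup
      rw [Finset.sum_const, smul_eq_mul, mul_one] at this
      exact this
    rw [← hcard2, ← hcard3]
    refine ⟨by omega, ?_⟩
    intro he
    have hA2 : ∑ w ∈ P3, q ^ 2 =
        ∑ w ∈ P3, (br q 3 - br q (finrank F ↥(N w ⊓ Be B N (i + 1) x))) := by
      rw [Finset.sum_const, smul_eq_mul, mul_comm]
      omega
    have hC2 : ∑ y ∈ P2, br q (finrank F ↥(N y ⊓ Be B N (i + 1) x)) = ∑ y ∈ P2, 1 := by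
      rw [Finset.sum_const, smul_eq_mul, mul_one]
      omega
    have hA3 := (Finset.sum_eq_sum_iff_of_le hlow).1 hA2
    have hC3 := (Finset.sum_eq_sum_iff_of_le hup).1 hC2
    constructor
    · intro y hy hy1 hy2
      have h6 := hC3 y (Finset.mem_filter.2 ⟨Finset.mem_univ _, hy, hy1, hy2⟩)
      apply br_inj (q := q) (by omega)
      rw [h6, br_one]
    · intro y hy hy1 hy2
      have h6 := hA3 y (Finset.mem_filter.2
        ⟨Finset.mem_filter.2 ⟨Finset.mem_univ _, hy, hy1⟩, hy2⟩)
      have h7 := br_mono (q := q) (ht2 x y hx hy hy2)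
      apply br_inj (q := q) (by omega)
      omega
  -- numbers
  have hb'le : finrank F (Be B N (i + 2) x0) ≤ finrank F (Be B N (i + 1) x0) :=
    Submodule.finrank_mono (hdec (i + 1) x0 hx0)
  obtain ⟨s, hs⟩ := Nat.exists_eq_add_of_le hb'le
  -- s ≠ 0
  have hs0 : s ≠ 0 := by
    intro h0
    have hall : ∀ x, Pt x → Be B N (i + 1 + 1) x = Be B N (i + 1) x := by
      intro x hx
      apply Submodule.eq_of_le_of_finrank_eq (hdec (i + 1) x hx)
      have a1 := hconst (i + 2) x x0 hx hx0
      have a2 := hconst (i + 1) x x0 hx hx0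
      change finrank F (Be B N (i + 2) x) = _
      rw [a1, a2, hs, h0, add_zero]
    have hbot := hst (i + 1) (by omega) hall x0 hx0
    have := hbi1 x0 hx0
    rw [hbot, finrank_bot] at this
    omega
  -- s ≤ 2
  have hs2 : s ≤ 2 := by
    by_contra hcon
    have hs3 : 3 ≤ s := by omega
    obtain ⟨r, rfl⟩ := Nat.exists_eq_add_of_le hs3
    have hin := (hineq x0 hx0).1
    have hbb : finrank F (Be B N i x0) = finrank F (Be B N (i + 1) x0) + 2 := by
      have a1 := hbi x0 hx0
      have a2 := hbi1 x0 hx0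
      omega
    rw [hbb, hs, br_add q _ 2, br_add q _ (3 + r), Nat.add_sub_cancel_left] at hin
    have h4 : br q (finrank F ↥(Be B N (i + 2) x0)) +
        q ^ finrank F ↥(Be B N (i + 2) x0) * br q (3 + r) +
        q ^ (finrank F ↥(Be B N (i + 2) x0) + (3 + r)) * br q 2 -
        (br q (finrank F ↥(Be B N (i + 2) x0)) +
        q ^ finrank F ↥(Be B N (i + 2) x0) * br q (3 + r)) =
        q ^ (finrank F ↥(Be B N (i + 2) x0) + (3 + r)) * br q 2 := by
      rw [Nat.add_sub_cancel_left]
    rw [h4] at hin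
    have hbr2 : br q 2 = 1 + q := by
      rw [br_succ', br_one]; ring
    have hbrr : q ^ r + q ^ (r + 1) + q ^ (r + 2) ≤ br q (3 + r) := by
      have e : br q (3 + r) = br q r + q ^ r + q ^ (r + 1) + q ^ (r + 2) := by
        rw [show 3 + r = r + 1 + 1 + 1 by ring, br_succ, br_succ, br_succ]
      omega
    set Q := q ^ finrank F ↥(Be B N (i + 2) x0) with hQ
    have hQpos : 0 < Q := by positivity
    have hrpos : 0 < q ^ r := by positivity
    rw [pow_add, hbr2, ← hQ] at hin
    have h5 : q ^ 2 * (Q * (q ^ r + q ^ (r + 1) + q ^ (r + 2))) ≤ Q * q ^ (3 + r) * (1 + q) :=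
      le_trans (Nat.mul_le_mul_left _ (Nat.mul_le_mul_left _ hbrr)) hin
    have h6 : Q * (q ^ (2 + r)) + Q * q ^ (3 + r) * (1 + q) ≤ Q * q ^ (3 + r) * (1 + q) := by
      refine le_trans (le_of_eq ?_) h5
      ring
    have h7 : 0 < Q * q ^ (2 + r) := by positivity
    omega
  -- s ≠ 1
  have hs1 : s ≠ 1 := by
    intro h1s
    have hdim : ∀ x, Pt x → finrank F (Be B N (i + 1) x) = finrank F (Be B N (i + 2) x) + 1 := by
      intro x hx
      rw [hconst (i + 1) x x0 hx hx0, hconst (i + 2) x x0 hx hx0, hs, h1s]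
    by_cases hex : ∃ x w, Pt x ∧ Pt w ∧ w ≤ N x ∧ w ≠ x ∧ Be B N (i + 1) w = Be B N (i + 1) x
    · obtain ⟨x, w, hx, hw, hwN, hwx, hE⟩ := hex
      have hall : ∀ w', Pt w' → w' ≤ N x → Be B N (i + 1) w' = Be B N (i + 1) x := by
        intro w' hw' hw'N
        by_cases hne : w' = x
        · rw [hne]
        · obtain ⟨g, hg, hgx, hgw⟩ := hNN.trN x w w' hx hw hw' hwN hw'N hwx hne
          rw [← hgw, heq (i + 1) g hg w hw, hE, ← heq (i + 1) g hg x hx, hgx]
      have hle : Be B N (i + 1) x ≤ Be B N (i + 2) x := by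
        change Be B N (i + 1) x ≤ ⨅ w : {w : Submodule F W // Pt w ∧ w ≤ N x}, Be B N (i + 1) w.1
        apply le_iInf
        rintro ⟨w', hw', hw'N⟩
        rw [hall w' hw' hw'N]
      have := Submodule.finrank_mono hle
      have := hdim x hx
      omega
    · push Not at hex
      have hinf : ∀ x w, Pt x → Pt w → w ≤ N x → w ≠ x →
          Be B N (i + 2) x = Be B N (i + 1) x ⊓ Be B N (i + 1) w := by
        intro x w hx hw hwN hwx
        have hle : Be B N (i + 2) x ≤ Be B N (i + 1) x ⊓ Be B N (i + 1) w := by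
          apply le_inf
          · exact hdec (i + 1) x hx
          · change (⨅ w : {w : Submodule F W // Pt w ∧ w ≤ N x}, Be B N (i + 1) w.1) ≤ _
            exact iInf_le (fun w : {w : Submodule F W // Pt w ∧ w ≤ N x} => Be B N (i + 1) w.1)
              ⟨w, hw, hwN⟩
        apply Submodule.eq_of_le_of_finrank_le hle
        have hlt : Be B N (i + 1) x ⊓ Be B N (i + 1) w < Be B N (i + 1) x := by
          refine lt_of_le_of_ne inf_le_left ?_
          intro he
          have hxw : Be B N (i + 1) x ≤ Be B N (i + 1) w := by rw [← he]; exact inf_le_right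
          have := Submodule.eq_of_le_of_finrank_eq hxw (hconst (i + 1) x w hx hw)
          exact hex x w hx hw hwN hwx this.symm
        have h5 := Submodule.finrank_lt_finrank_of_lt hlt
        have h6 := hdim x hx
        omega
      have hall : ∀ x, Pt x → Be B N (i + 2 + 1) x = Be B N (i + 2) x := by
        intro x hx
        apply le_antisymm (hdec (i + 2) x hx)
        change Be B N (i + 2) x ≤ ⨅ w : {w : Submodule F W // Pt w ∧ w ≤ N x}, Be B N (i + 2) w.1
        apply le_iInf
        rintro ⟨w, hw, hwN⟩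
        by_cases hne : w = x
        · exact le_of_eq (congrArg (Be B N (i + 2)) hne.symm)
        · change Be B N (i + 2) x ≤ Be B N (i + 2) w
          rw [hinf x w hx hw hwN hne, hinf w x hw hx (hPG.symN x w hx hw hwN) (Ne.symm hne)]
          rw [inf_comm]
      have hbot := hst (i + 2) (by omega) hall x0 hx0
      have h5 := hdim x0 hx0
      rw [hbot, finrank_bot] at h5
      have := hbi1 x0 hx0
      omega
  have hs' : s = 2 := by omega
  subst hs'
  have hdim2 : ∀ x, Pt x → finrank F (Be B N (i + 2) x) + 2 * (i + 2) = finrank F W := by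
    intro x hx
    have a1 := hbi1 x0 hx0
    have a2 := hconst (i + 2) x x0 hx hx0
    omega
  refine ⟨hdim2, ?_⟩
  intro x y hx hy
  have hinx := hineq x hx
  have hEq : q ^ 2 * (br q (finrank F (Be B N (i + 1) x)) - br q (finrank F (Be B N (i + 2) x))) =
        br q (finrank F (Be B N i x)) - br q (finrank F (Be B N (i + 1) x)) := by
    have a0 := hbi x hx
    have a1 := hbi1 x hx
    have a2 := hdim2 x hx
    have e1 : finrank F (Be B N (i + 1) x) = finrank F (Be B N (i + 2) x) + 2 := by omega
    have e2 : finrank F (Be B N i x) = finrank F (Be B N (i + 2) x) + 2 + 2 := by omega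
    rw [e2, e1]
    generalize finrank F (Be B N (i + 2) x) = b
    have a3 : br q (b + 2 + 2) = br q (b + 2) + q ^ (b + 2) * br q 2 := br_add q (b + 2) 2
    have a4 : br q (b + 2) = br q b + q ^ b * br q 2 := br_add q b 2
    have a5 : q ^ (b + 2) * br q 2 = q ^ 2 * (q ^ b * br q 2) := by ring
    have a6 : br q (b + 2) - br q b = q ^ b * br q 2 := by omega
    rw [a6]
    omega
  obtain ⟨hc1, hc2⟩ := hinx.2 hEq
  refine ⟨?_, ?_, ?_, ?_⟩
  · rw [Nat.add_sub_cancel]; exact h1 x y hx hy
  · rw [Nat.add_sub_cancel]; exact hc1 y hy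
  · exact hc2 y hy
  · exact h3 (i + 1) x y (by omega) hx hy

end GL4.PkPOL2
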