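import Pool.Agent.Helper79.GL4.GoalsA

/-!
# GL4, packet S5B2: cocycle argument in dimension at least 5
-/

set_option autoImplicit false

namespace GL4.PkS5B2

open Module

variable {F : Type} [Field F] {V : Type} [AddCommGroup V] [Module F V]

/-- the commutation principle for two lifts -/
lemma comm_lifts (K : Subgroup (V ≃ₗ[F] V)) (p : V)
    (hF : FaithQ K (F ∙ p)) {t s : V ≃ₗ[F] V} (ht : t ∈ K) (hs : s ∈ K)
    {f g ψ χ : Module.Dual F (V ⧸ (F ∙ p))} {u' w' : V}
    (htv : ∀ v, t v = v + f ((F ∙ p).mkQ v) • u' + ψ ((F ∙ p).mkQ v) • p)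
    (hsv : ∀ v, s v = v + g ((F ∙ p).mkQ v) • w' + χ ((F ∙ p).mkQ v) • p)
    (hfw : f ((F ∙ p).mkQ w') = 0) (hgu : g ((F ∙ p).mkQ u') = 0) (hp : p ≠ 0) :
    ∀ x : V ⧸ (F ∙ p), g x * ψ ((F ∙ p).mkQ w') = f x * χ ((F ∙ p).mkQ u') := by
  have hp0 : (F ∙ p).mkQ p = 0 := by
    rw [Submodule.mkQ_apply, Submodule.Quotient.mk_eq_zero]
    exact Submodule.mem_span_singleton_self p
  have htp : t p = p := by rw [htv, hp0]; simp
  have hsp : s p = p := by rw [hsv, hp0]; simp
  have hts : ∀ v, t (s v) = v + f ((F ∙ p).mkQ v) • u' + ψ ((F ∙ p).mkQ v) • p +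
      g ((F ∙ p).mkQ v) • (w' + ψ ((F ∙ p).mkQ w') • p) + χ ((F ∙ p).mkQ v) • p := by
    intro v
    rw [hsv v, map_add, map_add, map_smul, map_smul, htp, htv v, htv w', hfw, zero_smul, add_zero]
  have hst : ∀ v, s (t v) = v + g ((F ∙ p).mkQ v) • w' + χ ((F ∙ p).mkQ v) • p +
      f ((F ∙ p).mkQ v) • (u' + χ ((F ∙ p).mkQ u') • p) + ψ ((F ∙ p).mkQ v) • p := by
    intro v
    rw [htv v, map_add, map_add, map_smul, map_smul, hsp, hsv v, hsv u', hgu, zero_smul, add_zero]
  have hk : t * s * (s * t)⁻¹ ∈ K := K.mul_mem (K.mul_mem ht hs) (K.inv_mem (K.mul_mem hs ht))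
  have hinv : ∀ v, ∃ w, v = s (t w) ∧ (t * s * (s * t)⁻¹) v = t (s w) := by
    intro v
    refine ⟨(s * t)⁻¹ v, ?_, rfl⟩
    exact ((s * t).apply_symm_apply v).symm
  have hmk : ∀ v, (F ∙ p).mkQ ((t * s * (s * t)⁻¹) v) = (F ∙ p).mkQ v := by
    intro v
    obtain ⟨w, h1, h2⟩ := hinv v
    rw [h2, h1, hts, hst]
    simp only [map_add, map_smul, hp0, smul_zero, add_zero]
    abel
  have hkp : (t * s * (s * t)⁻¹) p = p := by
    obtain ⟨w, h1, h2⟩ := hinv p
    have hw : w = p := by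
      apply t.injective
      apply s.injective
      rw [← h1, htp, hsp]
    rw [h2, hw, hsp, htp]
  have him : im (t * s * (s * t)⁻¹) (F ∙ p) = (F ∙ p) := by
    unfold im
    rw [Submodule.map_span, Set.image_singleton]
    congr 2
  have h1 := hF _ hk him hmk
  have h2 : t * s = s * t := mul_inv_eq_one.mp h1
  intro x
  obtain ⟨v, rfl⟩ := (F ∙ p).mkQ_surjective x
  have h3 : t (s v) = s (t v) := by
    have := congrArg (fun e : V ≃ₗ[F] V => e v) h2
    exact this
  rw [hts, hst] at h3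
  have h4 : (g ((F ∙ p).mkQ v) * ψ ((F ∙ p).mkQ w')) • p =
      (f ((F ∙ p).mkQ v) * χ ((F ∙ p).mkQ u')) • p := by
    rw [mul_smul, mul_smul]
    simp only [smul_add] at h3
    have h5 := sub_eq_zero.mpr h3
    apply sub_eq_zero.mp
    rw [← h5]
    abel
  exact smul_left_injective F hp h4

theorem s5B2 : GL4.S5B2 := by
  intro F _ _ V _ _ _ K p hp hF hL hdim
  have hfr : finrank F (V ⧸ (F ∙ p)) + 1 = finrank F V := by
    rw [← finrank_span_singleton (K := F) hp]
    exact Submodule.finrank_quotient_add_finrank _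
  -- nonzero u
  have hnt : Nontrivial (V ⧸ (F ∙ p)) := by
    apply Module.nontrivial_of_finrank_pos (R := F); omega
  obtain ⟨u, hu⟩ := exists_ne (0 : V ⧸ (F ∙ p))
  -- separating functionals
  have hsep : ∀ (S : Submodule F (V ⧸ (F ∙ p))) (f : Module.Dual F (V ⧸ (F ∙ p))),
      finrank F S ≤ 2 → ∃ g : Module.Dual F (V ⧸ (F ∙ p)), (∀ x ∈ S, g x = 0) ∧ g ∉ F ∙ f := by
    intro S f hS
    by_contra hcon
    push Not at hcon
    have hle : S.dualAnnihilator ≤ F ∙ f := by
      intro g hg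
      exact hcon g (fun x hx => (Submodule.mem_dualAnnihilator g).mp hg x hx)
    have h1 := Submodule.finrank_mono hle
    have h2 := Subspace.finrank_add_finrank_dualAnnihilator_eq S
    have h3 : finrank F (F ∙ f) ≤ 1 := by
      have := finrank_span_le_card (R := F) ({f} : Set (Module.Dual F (V ⧸ (F ∙ p))))
      simpa using this
    omega
  -- f
  obtain ⟨f, hfu, hf0⟩ := hsep (F ∙ u) 0 (by
    rw [finrank_span_singleton hu]; norm_num)
  have hfu0 : f u = 0 := hfu u (Submodule.mem_span_singleton_self u)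
  have hfne : f ≠ 0 := by
    intro h
    apply hf0
    rw [h]
    exact Submodule.zero_mem _
  obtain ⟨t, htK, u', ψ, hu', htv⟩ := hL f u hfu0
  -- ψ vanishes on ker f
  have hψ : ∀ w, f w = 0 → ψ w = 0 := by
    intro w hfw
    obtain ⟨g, hg, hgf⟩ := hsep (Submodule.span F {u, w}) f (by
      classical
      have := finrank_span_finset_le_card (R := F) ({u, w} : Finset (V ⧸ (F ∙ p)))
      have h2 : (({u, w} : Finset (V ⧸ (F ∙ p))) : Set (V ⧸ (F ∙ p))) = {u, w} := by simp
      unfold Set.finrank at this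
      rw [h2] at this
      exact this.trans Finset.card_le_two)
    have hgu : g u = 0 := hg u (Submodule.subset_span (by simp))
    have hgw : g w = 0 := hg w (Submodule.subset_span (by simp))
    obtain ⟨s, hsK, w', χ, hw', hsv⟩ := hL g w hgw
    have h1 := comm_lifts K p hF htK hsK htv hsv (by rw [hw']; exact hfw) (by rw [hu']; exact hgu) hp
    rw [hw', hu'] at h1
    by_contra hne
    apply hgf
    rw [Submodule.mem_span_singleton]
    refine ⟨χ u / ψ w, ?_⟩
    ext x
    have h2 := h1 ((F ∙ p).mkQ x)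
    simp only [LinearMap.smul_apply, smul_eq_mul, LinearMap.comp_apply]
    have h3 : g ((F ∙ p).mkQ x) = f ((F ∙ p).mkQ x) * χ u / ψ w := by
      rw [← h2, mul_div_assoc, div_self hne, mul_one]
    rw [h3]; ring
  -- ψ = c f
  obtain ⟨x0, hx0⟩ : ∃ x, f x ≠ 0 := by
    by_contra h
    push Not at h
    exact hfne (LinearMap.ext h)
  have hψf : ∀ x, ψ x = (ψ x0 / f x0) * f x := by
    intro x
    have h1 := hψ (x - (f x / f x0) • x0) (by
      rw [map_sub, map_smul, smul_eq_mul, div_mul_cancel₀ _ hx0, sub_self])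
    rw [map_sub, map_smul, smul_eq_mul, sub_eq_zero] at h1
    rw [h1]; field_simp
  set c := ψ x0 / f x0 with hc
  have hp0 : (F ∙ p).mkQ p = 0 := by
    rw [Submodule.mkQ_apply, Submodule.Quotient.mk_eq_zero]
    exact Submodule.mem_span_singleton_self p
  refine ⟨t, htK, ?_, f.comp (F ∙ p).mkQ, u' + c • p, ?_, ?_⟩
  · intro h1
    obtain ⟨v0, hv0⟩ := (F ∙ p).mkQ_surjective x0
    have h2 := htv v0
    rw [h1, LinearEquiv.coe_one, id_eq, hv0] at h2
    have h3 := congrArg (F ∙ p).mkQ h2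
    simp only [map_add, map_smul, hp0, smul_zero, add_zero, hu'] at h3
    have h4 : f x0 • u = 0 := by
      have := sub_eq_zero.mpr h3.symm
      rw [add_sub_cancel_left] at this
      exact this
    rcases smul_eq_zero.mp h4 with h5 | h5
    · exact hx0 h5
    · exact hu h5
  · rw [LinearMap.comp_apply, map_add, map_smul, hp0, smul_zero, add_zero, hu', hfu0]
  · intro v
    rw [htv v, hψf, LinearMap.comp_apply, smul_add, smul_smul, mul_comm, add_assoc]

end GL4.PkS5B2
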